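import Pool.Agent.Helper15.GS.GoalsE

/-! # GS GB5: the form `β Q⁻¹` is a projector -/

open Complex Metric Set Filter Topology MeasureTheory
open scoped ContDiff ComplexConjugate ComplexOrder Manifold Matrix

namespace Pool.Agent.Helper56.GS

open Pool.Agent.Helper95.Lin Pool.Agent.Helper16.Abund Pool.Agent.Helper92.Orb
  Pool.Agent.Helper10.SP Pool.Agent.Helper95.RK Pool.Agent.Helper57.HS
  Pool.Agent.Helper15.GS

universe u

namespace GB5

/-- A test function times a continuous function is integrable. -/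
theorem testF_mul {n : ℕ} {T : Set (Cn n)} (hT : IsOpen T) {κ f : Cn n → ℝ} (hκ : TestF T κ)
    (hf : ContinuousOn f T) : Integrable (fun x => κ x * f x) := by
  have h1 : Continuous (fun x => κ x * f x) := by
    apply ContinuousOn.continuous_of_tsupport_subset (s := T) _ hT
    · exact (closure_mono (Function.support_mul_subset_left κ f)).trans hκ.2.2
    · exact hκ.1.continuous.continuousOn.mul hf
  have h2 : HasCompactSupport (fun x => κ x * f x) := hκ.2.1.mul_right
  exact h1.integrable_of_hasCompactSupport h2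

theorem det_cont {n : ℕ} {T : Set (Cn n)} {Q : Cn n → Matrix (Fin n) (Fin n) ℂ}
    (hQ : ∀ i j, ContDiffOn ℝ ∞ (fun x => Q x i j) T) :
    ContinuousOn (fun x => (Q x).det.re) T := by
  have h1 : ContinuousOn Q T := by
    apply continuousOn_pi.mpr
    intro i
    apply continuousOn_pi.mpr
    intro j
    exact (hQ i j).continuousOn
  have h2 : ContinuousOn (fun x => (Q x).det) T :=
    (Continuous.matrix_det continuous_id).comp_continuousOn h1
  exact Complex.continuous_re.comp_continuousOn h2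

/-- The lower bound of the average of the trace. -/
theorem avg_ge (h3 : Pool.Agent.Helper95.HS.S_TRC) {n : ℕ} {T : Set (Cn n)} {κ : Cn n → ℝ}
    (hopen : IsOpen T) (hκt : TestF T κ) (hκ0 : ∀ x, 0 ≤ κ x)
    {Q Y : Cn n → Matrix (Fin n) (Fin n) ℂ} (hQs : ∀ i j, ContDiffOn ℝ ∞ (fun x => Q x i j) T)
    (hQp : ∀ x ∈ T, (Q x).PosDef) (hYs : ∀ i j, ContDiffOn ℝ ∞ (fun x => Y x i j) T)
    (hYp : ∀ x ∈ T, (Y x).PosSemidef)
    (hsc : ContinuousOn (fun x => (Matrix.trace (Y x * (Q x)⁻¹)).re) T) (k : ℕ)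
    (hV : 0 ≤ ∫ x in T, κ x * (Q x).det.re)
    (hvol : ∀ t : ℝ, ∫ x in T, κ x * (Q x + (t : ℂ) • Y x).det.re =
      (1 + t) ^ k * ∫ x in T, κ x * (Q x).det.re) :
    k * ∫ x in T, κ x * (Q x).det.re ≤
      ∫ x in T, κ x * ((Q x).det.re * (Matrix.trace (Y x * (Q x)⁻¹)).re) := by
  have hdc : ContinuousOn (fun x => (Q x).det.re) T := det_cont hQs
  set s : Cn n → ℝ := fun x => (Matrix.trace (Y x * (Q x)⁻¹)).re with hs
  -- bound
  obtain ⟨B, hB0, hB⟩ : ∃ B : ℝ, 0 < B ∧ ∀ x ∈ tsupport κ, s x ≤ B := by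
    have hc : IsCompact (tsupport κ) := hκt.2.1
    obtain ⟨B, hB⟩ := (hc.image_of_continuousOn (hsc.mono hκt.2.2)).bddAbove
    refine ⟨max B 1, lt_of_lt_of_le one_pos (le_max_right _ _), ?_⟩
    intro x hx
    exact (hB ⟨x, hx, rfl⟩).trans (le_max_left _ _)
  have i1 : Integrable (fun x => κ x * (Q x).det.re) := testF_mul hopen hκt hdc
  have i2 : Integrable (fun x => κ x * ((Q x).det.re * s x)) :=
    testF_mul hopen hκt (hdc.mul hsc)
  have i3 : Integrable (fun x => κ x * ((Q x).det.re * s x ^ 2)) :=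
    testF_mul hopen hκt (hdc.mul (hsc.pow 2))
  have key : ∀ t : ℝ, 0 < t → t * B ≤ 1 →
      k * ∫ x in T, κ x * (Q x).det.re ≤ (∫ x in T, κ x * ((Q x).det.re * s x)) +
        t * ∫ x in T, κ x * ((Q x).det.re * s x ^ 2) := by
    intro t ht htB
    have e1 := hvol t
    have e3 : ∫ x in T, κ x * (Q x + (t : ℂ) • Y x).det.re ≤
        ∫ x in T, (κ x * (Q x).det.re + t * (κ x * ((Q x).det.re * s x)) +
          t ^ 2 * (κ x * ((Q x).det.re * s x ^ 2))) := by
      apply setIntegral_mono_on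
      · apply Integrable.integrableOn
        apply testF_mul hopen hκt
        apply det_cont
        intro i j
        exact (hQs i j).add ((contDiffOn_const (c := (t : ℂ))).mul (hYs i j))
      · exact ((i1.add (i2.const_mul t)).add (i3.const_mul (t ^ 2))).integrableOn
      · exact hopen.measurableSet
      · intro x hx
        rcases eq_or_ne (κ x) 0 with h0 | h0
        · simp [h0]
        · have hx' : x ∈ tsupport κ := subset_tsupport κ h0
          have f1 := ((h3 (Q x) (Y x) (hQp x hx)).2.2.2.2 t ht.le (hYp x hx)).2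
          have f2 : (Matrix.trace ((Q x)⁻¹ * Y x)).re = s x := by
            simp only [hs]
            rw [Matrix.trace_mul_comm]
          rw [f2] at f1
          have f4 : t * s x ≤ 1 := (mul_le_mul_of_nonneg_left (hB x hx') ht.le).trans htB
          have f5 := mul_le_mul_of_nonneg_left (f1 f4) (hκ0 x)
          refine f5.trans (le_of_eq ?_)
          ring
    have e4 : ∫ x in T, (κ x * (Q x).det.re + t * (κ x * ((Q x).det.re * s x)) +
          t ^ 2 * (κ x * ((Q x).det.re * s x ^ 2))) = (∫ x in T, κ x * (Q x).det.re) +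
          t * (∫ x in T, κ x * ((Q x).det.re * s x)) +
          t ^ 2 * ∫ x in T, κ x * ((Q x).det.re * s x ^ 2) := by
      have j1 : IntegrableOn (fun x => κ x * (Q x).det.re + t * (κ x * ((Q x).det.re * s x))) T :=
        (i1.add (i2.const_mul t)).integrableOn
      have j2 : IntegrableOn (fun x => t ^ 2 * (κ x * ((Q x).det.re * s x ^ 2))) T :=
        (i3.const_mul (t ^ 2)).integrableOn
      have j3 : IntegrableOn (fun x => t * (κ x * ((Q x).det.re * s x))) T :=
        (i2.const_mul t).integrableOn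
      rw [integral_add j1 j2, integral_add i1.integrableOn j3, integral_const_mul,
        integral_const_mul]
    rw [e1, e4] at e3
    have e5 : 1 + (k : ℝ) * t ≤ (1 + t) ^ k := one_add_mul_le_pow (by linarith) k
    have e6 := mul_le_mul_of_nonneg_right e5 hV
    have e7 : t * (k * ∫ x in T, κ x * (Q x).det.re) ≤
        t * ((∫ x in T, κ x * ((Q x).det.re * s x)) +
        t * ∫ x in T, κ x * ((Q x).det.re * s x ^ 2)) := by nlinarith
    exact le_of_mul_le_mul_left e7 ht
  have hc : Tendsto (fun t : ℝ => (∫ x in T, κ x * ((Q x).det.re * s x)) +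
      t * ∫ x in T, κ x * ((Q x).det.re * s x ^ 2)) (𝓝[>] 0)
      (𝓝 ((∫ x in T, κ x * ((Q x).det.re * s x)) +
      0 * ∫ x in T, κ x * ((Q x).det.re * s x ^ 2))) := by
    apply Tendsto.mono_left _ nhdsWithin_le_nhds
    exact (continuous_const.add (continuous_id.mul continuous_const)).tendsto 0
  rw [zero_mul, add_zero] at hc
  refine ge_of_tendsto hc ?_
  have : Ioo (0 : ℝ) (1 / B) ∈ 𝓝[>] (0 : ℝ) := Ioo_mem_nhdsGT (by positivity)
  filter_upwards [this] with t ht
  refine key t ht.1 ?_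
  have := mul_le_mul_of_nonneg_right ht.2.le hB0.le
  rwa [one_div, inv_mul_cancel₀ hB0.ne'] at this

end GB5

open GB5 in
/-- GB5. -/
theorem gb5 (hPUE : Pool.Agent.Helper10.SP.S_PUE.{u}) (hMCAL : Pool.Agent.Helper15.HS.S_MCAL)
    (hCLG : Pool.Agent.Helper15.HS.S_CLG) (hAAPS : Pool.Agent.Helper95.HS.S_AAPS)
    (hTRI : Pool.Agent.Helper95.HS.S_TRI.{u}) (hNULL0 : Pool.Agent.Helper95.HS.S_NULL0.{u})
    (hTRC : Pool.Agent.Helper95.HS.S_TRC) (hKETP : Pool.Agent.Helper95.HS.S_KETP.{u})
    (hGPF : S_GPF.{u}) (hGVB : S_GVB.{u}) (hGAL : S_GAL) : S_GB5.{u} := by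
  intro n T G _ R H h hD k P hP Q hQ
  obtain ⟨hQk, hQe⟩ := hQ
  have hopen : IsOpen T := hD.ket.et.isOpen
  obtain ⟨κ, hκ⟩ := hPUE T R hD.ket.et
  have hgpf := hGPF T R H h hD k P hP
  have hCQ : CHF Q T := ⟨hQk.smooth, fun y hy => (hQk.posDef y hy).isHermitian, hQk.closed⟩
  have hYs : ∀ i j, ContDiffOn ℝ ∞ (fun x => (P x * h x) i j) T := hP.chf.smooth
  have hsI : InvF T R (fun x => (Matrix.trace (P x * h x * (Q x)⁻¹)).re) :=
    (hTRI T R Q hQk).1 (fun x => P x * h x) hYs hP.inv
  have hrho : ∀ x ∈ T, rho Q x = Q x - P x * h x := fun x hx => by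
    rw [hQe x hx]
    simp
  -- smoothness of the connection
  have hΓs : ∀ k i j, ContDiffOn ℝ ∞ (fun x => Gam h k x i j) T := by
    intro m i j
    have a1 := hMCAL T hopen h h hD.her.smooth hD.her.smooth
    have a2 := (a1.2.2.2.1 fun x hx => (hD.her.posDef x hx).det_pos.ne').1
    exact (hMCAL T hopen (cdM m h) (fun x => (h x)⁻¹) (fun i j => (a1.1 m i j).1) a2).2.1 i j
  have hclg := hCLG T hopen Q (fun x => P x * h x) (fun x => P x * h x) (Gam h) hCQ hQk.posDef
    hrho hYs hP.chf.herm hΓs (fun x hx l => (hgpf x hx).2.2.1 l)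
  set s : Cn n → ℝ := fun x => (Matrix.trace (P x * h x * (Q x)⁻¹)).re with hs
  obtain ⟨htr, -⟩ := (hKETP T R hQk.et).2.2 Q s hQk hsI
  set q : Cn n → ℝ := fun x => (Matrix.trace (P x * h x * (Q x)⁻¹ * (P x * h x) * (Q x)⁻¹)).re -
    2 * s x + k with hq
  set AA : Cn n → ℝ := fun x => (∑ k, ∑ l, (Q x)⁻¹ l k *
      Matrix.trace ((Gam Q k x - Gam h k x) * (P x * h x) * (Gam Q l x - Gam h l x)ᴴ *
        (Q x)⁻¹)).re with hAA
  have hid : ∀ x ∈ T, (trL Q s x).re - s x + k = q x + AA x := by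
    intro x hx
    have b1 := (hclg x hx).2.2.2
    have b2 : ∑ k, ∑ l, (Q x)⁻¹ l k *
        Matrix.trace (cdbM l (Gam h k) x * (P x * h x) * (Q x)⁻¹) = 0 := by
      refine Finset.sum_eq_zero fun a _ => Finset.sum_eq_zero fun b _ => ?_
      rw [(hgpf x hx).2.2.2.1 a b, Matrix.zero_mul, Matrix.trace_zero, mul_zero]
    rw [b2, add_zero] at b1
    rw [b1]
    simp only [add_re, neg_re, hq, hAA, hs]
    ring
  have hq0 : ∀ x ∈ T, 0 ≤ q x := fun x hx =>
    (hGAL k (h x) (Q x) (P x) (hD.her.posDef x hx) (hQk.posDef x hx) (hP.proj x hx)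
      (hP.herm x hx) (hP.tr x hx)).1
  have hA0 : ∀ x ∈ T, 0 ≤ AA x := fun x hx =>
    (hAAPS (Q x) (P x * h x) (fun k => Gam Q k x - Gam h k x) (hQk.posDef x hx)
      (hgpf x hx).2.1).2.1
  -- the function `f`
  set f : Cn n → ℝ := fun x => (trL Q s x).re - s x + k with hf
  have hf0 : ∀ x ∈ T, 0 ≤ f x := fun x hx => by
    simp only [hf]
    rw [hid x hx]
    exact add_nonneg (hq0 x hx) (hA0 x hx)
  have hfI : InvF T R f := by
    refine ⟨(htr.1.sub hsI.1).add contDiffOn_const, ?_⟩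
    intro γ x y hxy
    simp only [hf]
    have a1 := htr.2 γ x y hxy
    have a2 := hsI.2 γ x y hxy
    simp only at a1
    rw [a1, a2]
  have hdc : ContinuousOn (fun x => (Q x).det.re) T := det_cont hQk.smooth
  have hV : 0 < Pool.Agent.Helper95.HS.vol T κ Q := (hNULL0 T R Q hQk κ hκ).1
  have hav := avg_ge hTRC hopen hκ.test hκ.nonneg hQk.smooth hQk.posDef hYs
    (fun x hx => (hgpf x hx).2.1) hsI.1.continuousOn k hV.le
    ((hGVB T R H h hD k P hP κ hκ).2.1 Q ⟨hQk, hQe⟩)
  have hint : ∫ x in T, κ x * (Q x).det.re * f x ≤ 0 := by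
    have i1 : IntegrableOn (fun x => κ x * ((Q x).det.re * (trL Q s x).re)) T :=
      (testF_mul hopen hκ.test (hdc.mul htr.1.continuousOn)).integrableOn
    have i2 : IntegrableOn (fun x => κ x * ((Q x).det.re * s x)) T :=
      (testF_mul hopen hκ.test (hdc.mul hsI.1.continuousOn)).integrableOn
    have i3 : IntegrableOn (fun x => κ x * (Q x).det.re) T :=
      (testF_mul hopen hκ.test hdc).integrableOn
    have e1 : ∫ x in T, κ x * (Q x).det.re * f x = ∫ x in T,
        (κ x * ((Q x).det.re * (trL Q s x).re) -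
          (κ x * ((Q x).det.re * s x) - k * (κ x * (Q x).det.re))) := by
      refine setIntegral_congr_fun hopen.measurableSet fun x _ => ?_
      simp only [hf]
      ring
    have j3 : IntegrableOn (fun x => (k : ℝ) * (κ x * (Q x).det.re)) T := i3.const_mul _
    have j2 : IntegrableOn (fun x => κ x * ((Q x).det.re * s x) -
        (k : ℝ) * (κ x * (Q x).det.re)) T := i2.sub j3
    rw [e1, integral_sub i1 j2, integral_sub i2 j3, integral_const_mul]
    have e2 : ∫ x in T, κ x * ((Q x).det.re * (trL Q s x).re) = 0 := by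
      rw [← (hTRI T R Q hQk).2 κ hκ s hsI]
      refine setIntegral_congr_fun hopen.measurableSet fun x _ => ?_
      ring
    rw [e2]
    linarith
  have hz := (hNULL0 T R Q hQk κ hκ).2 f hfI hf0 hint
  intro x hx
  have z1 := hz x hx
  simp only [hf] at z1
  rw [hid x hx] at z1
  have z2 := hq0 x hx
  have z3 := hA0 x hx
  have z4 : q x = 0 := by linarith
  exact z4

end Pool.Agent.Helper56.GS
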